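import Pool.Agent.Helper91.MC9.Spec

set_option autoImplicit false

namespace Pool.Agent.Helper42.MC9.NBR

open SimpleGraph Pool.Agent.Helper91.MC9

theorem reach_mono {V : Type} (G : SimpleGraph V) {s t : Set V} (h : s ⊆ t) {x y : V}
    (hx : x ∈ s) (hy : y ∈ s) (hr : (G.induce s).Reachable ⟨x, hx⟩ ⟨y, hy⟩) :
    (G.induce t).Reachable ⟨x, h hx⟩ ⟨y, h hy⟩ :=
  hr.map (G.induceHomOfLE h).toHom

theorem main : S_NBR := by
  intro ℋ V V' G G' hmax hfree φ hφ hG B hB hφB x y hxy hxB hyB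
  by_contra hnadj
  have hnf := hmax.2 x y hxy hnadj
  unfold Pool.Agent.Helper91.MC9.Free at hnf
  push Not at hnf
  obtain ⟨H, hH, B0, c0, d0, e0⟩ := hnf
  apply hfree H hH
  obtain ⟨bx, hbx, hbx'⟩ := hxB
  obtain ⟨yb, hyb, hyb'⟩ := hyB
  let B' : Fin H.1 → Set V' := fun w => φ '' (B0 w) ∪ {b | x ∈ B0 w ∧ b ∈ B}
  have hsub1 : ∀ w, ∀ a ∈ B0 w, φ a ∈ B' w := fun w a ha => Or.inl ⟨a, ha, rfl⟩
  have hsub2 : ∀ w, x ∈ B0 w → B ⊆ B' w := fun w hw b hb => Or.inr ⟨hw, hb⟩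
  refine ⟨B', ?_, ?_, ?_⟩
  · intro w
    -- the element bx of B is reachable from φ x when x ∈ B0 w
    have hB1 : ∀ (hx : x ∈ B0 w) (b : V') (hb : b ∈ B),
        (G'.induce (B' w)).Reachable ⟨φ x, hsub1 w x hx⟩ ⟨b, hsub2 w hx hb⟩ := by
      intro hx b hb
      have h1 : (G'.induce (B' w)).Adj ⟨φ x, hsub1 w x hx⟩ ⟨bx, hsub2 w hx hbx⟩ := hbx'
      have h2 : (G'.induce (B' w)).Reachable ⟨bx, hsub2 w hx hbx⟩ ⟨b, hsub2 w hx hb⟩ :=
        reach_mono G' (hsub2 w hx) hbx hb (hB.preconnected ⟨bx, hbx⟩ ⟨b, hb⟩)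
      exact h1.reachable.trans h2
    have hxyr : ∀ (hx : x ∈ B0 w) (hy : y ∈ B0 w),
        (G'.induce (B' w)).Reachable ⟨φ x, hsub1 w x hx⟩ ⟨φ y, hsub1 w y hy⟩ := by
      intro hx hy
      have h1 : (G'.induce (B' w)).Adj ⟨φ y, hsub1 w y hy⟩ ⟨yb, hsub2 w hx hyb⟩ := hyb'
      exact (hB1 hx yb hyb).trans h1.reachable.symm
    have key : ∀ (a b : B0 w), ((G ⊔ edge x y).induce (B0 w)).Reachable a b →
        (G'.induce (B' w)).Reachable ⟨φ a, hsub1 w a a.2⟩ ⟨φ b, hsub1 w b b.2⟩ := by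
      intro a b hab
      obtain ⟨p⟩ := hab
      induction p with
      | nil => exact Reachable.refl _
      | cons h p ih =>
        rename_i u v t
        refine Reachable.trans ?_ ih
        have h' : G.Adj u.1 v.1 ∨ (edge x y).Adj u.1 v.1 := h
        rcases h' with h' | h'
        · have : (G'.induce (B' w)).Adj ⟨φ u, hsub1 w u u.2⟩ ⟨φ v, hsub1 w v v.2⟩ :=
            hG _ _ h'
          exact this.reachable
        · rw [edge_adj] at h'
          obtain ⟨⟨h1, h2⟩ | ⟨h1, h2⟩, _⟩ := h'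
          · obtain ⟨u, hu⟩ := u
            obtain ⟨v, hv⟩ := v
            simp only at h1 h2
            subst h1
            subst h2
            exact hxyr hu hv
          · obtain ⟨u, hu⟩ := u
            obtain ⟨v, hv⟩ := v
            simp only at h1 h2
            subst h1
            subst h2
            exact (hxyr hv hu).symm
    obtain ⟨a⟩ := (c0 w).nonempty
    have hall : ∀ z : B' w, (G'.induce (B' w)).Reachable ⟨φ a, hsub1 w a a.2⟩ z := by
      rintro ⟨z, hz⟩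
      rcases hz with ⟨b, hb, rfl⟩ | ⟨hx, hb⟩
      · exact key a ⟨b, hb⟩ ((c0 w).preconnected _ _)
      · exact (key a ⟨x, hx⟩ ((c0 w).preconnected _ _)).trans (hB1 hx z hb)
    haveI : Nonempty (B' w) := ⟨⟨φ a, hsub1 w a a.2⟩⟩
    exact Connected.mk fun z z' => (hall z).symm.trans (hall z')
  · intro w w' hww
    have hd : Disjoint (B0 w) (B0 w') := d0 hww
    show Disjoint (B' w) (B' w')
    rw [Set.disjoint_left] at hd ⊢
    rintro z (⟨a, ha, rfl⟩ | ⟨hx, hb⟩) (⟨a', ha', h⟩ | ⟨hx', hb'⟩)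
    · exact hd ha (hφ h ▸ ha')
    · exact hφB a hb'
    · exact hφB a' (h ▸ hb)
    · exact hd hx hx'
  · intro a b hab
    obtain ⟨u, hu, v, hv, h⟩ := e0 a b hab
    have h' : G.Adj u v ∨ (edge x y).Adj u v := h
    rcases h' with h' | h'
    · exact ⟨φ u, hsub1 a u hu, φ v, hsub1 b v hv, hG _ _ h'⟩
    · rw [edge_adj] at h'
      obtain ⟨⟨h1, h2⟩ | ⟨h1, h2⟩, _⟩ := h'
      · subst h1
        subst h2
        exact ⟨yb, hsub2 a hu hyb, φ v, hsub1 b v hv, hyb'.symm⟩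
      · subst h1
        subst h2
        exact ⟨φ u, hsub1 a u hu, yb, hsub2 b hv hyb, hyb'⟩

end Pool.Agent.Helper42.MC9.NBR
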