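import Pool.Agent.Helper91.MC9.Spec

set_option autoImplicit false

namespace Pool.Agent.Helper42.MC9.TRANS

open SimpleGraph Pool.Agent.Helper91.MC9

/-- reachability in a smaller induced graph -/
theorem reach_mono {V : Type} (G : SimpleGraph V) {s t : Set V} (h : s ⊆ t) {x y : V}
    (hx : x ∈ s) (hy : y ∈ s) (hr : (G.induce s).Reachable ⟨x, hx⟩ ⟨y, hy⟩) :
    (G.induce t).Reachable ⟨x, h hx⟩ ⟨y, h hy⟩ :=
  hr.map (G.induceHomOfLE h).toHom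

/-- unions of connected sets along a connected graph -/
theorem union_conn {W V : Type} (Q : SimpleGraph W) (G : SimpleGraph V) (S : Set W)
    (B : W → Set V) (hS : (Q.induce S).Connected) (hB : ∀ w ∈ S, (G.induce (B w)).Connected)
    (hadj : ∀ a ∈ S, ∀ b ∈ S, Q.Adj a b → ∃ x ∈ B a, ∃ y ∈ B b, G.Adj x y) :
    (G.induce (⋃ w ∈ S, B w)).Connected := by
  have hsub : ∀ w ∈ S, B w ⊆ ⋃ w ∈ S, B w := fun w hw x hx => Set.mem_biUnion hw hx
  have key : ∀ (a b : S), (Q.induce S).Reachable a b → ∀ x (hx : x ∈ B a) y (hy : y ∈ B b),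
      (G.induce (⋃ w ∈ S, B w)).Reachable ⟨x, hsub a a.2 hx⟩ ⟨y, hsub b b.2 hy⟩ := by
    intro a b hab
    obtain ⟨p⟩ := hab
    induction p with
    | nil =>
      rename_i u
      intro x hx y hy
      exact reach_mono G (hsub u u.2) hx hy ((hB u u.2).preconnected ⟨x, hx⟩ ⟨y, hy⟩)
    | cons h p ih =>
      rename_i u v w
      intro x hx y hy
      obtain ⟨x', hx', y', hy', hxy⟩ := hadj u u.2 v v.2 h
      have h1 : (G.induce (⋃ w ∈ S, B w)).Reachable ⟨x, hsub u u.2 hx⟩ ⟨x', hsub u u.2 hx'⟩ :=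
        reach_mono G (hsub u u.2) hx hx' ((hB u u.2).preconnected ⟨x, hx⟩ ⟨x', hx'⟩)
      have h2 : (G.induce (⋃ w ∈ S, B w)).Adj ⟨x', hsub u u.2 hx'⟩ ⟨y', hsub v v.2 hy'⟩ := hxy
      exact (h1.trans h2.reachable).trans (ih y' hy' y hy)
  obtain ⟨a⟩ := hS.nonempty
  obtain ⟨x⟩ := (hB a a.2).nonempty
  haveI : Nonempty (⋃ w ∈ S, B w : Set V) := ⟨⟨x, hsub a a.2 x.2⟩⟩
  refine Connected.mk ?_
  rintro ⟨x, hx⟩ ⟨y, hy⟩
  obtain ⟨w, hw, hxw⟩ := Set.mem_iUnion₂.1 hx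
  obtain ⟨w', hw', hyw⟩ := Set.mem_iUnion₂.1 hy
  exact key ⟨w, hw⟩ ⟨w', hw'⟩ (hS.preconnected _ _) x hxw y hyw

theorem main : S_TRANS := by
  intro U W V H Q G ⟨B1, h1, d1, e1⟩ ⟨B2, h2, d2, e2⟩
  refine ⟨fun u => ⋃ w ∈ B1 u, B2 w, ?_, ?_, ?_⟩
  · intro u
    exact union_conn Q G (B1 u) B2 (h1 u) (fun w _ => h2 w) (fun a _ b _ hab => e2 a b hab)
  · intro u u' huu
    rw [Set.disjoint_left]
    intro x hx hx'
    obtain ⟨w, hw, hxw⟩ := Set.mem_iUnion₂.1 hx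
    obtain ⟨w', hw', hxw'⟩ := Set.mem_iUnion₂.1 hx'
    by_cases hww : w = w'
    · subst hww
      exact Set.disjoint_left.1 (d1 huu) hw hw'
    · exact Set.disjoint_left.1 (d2 hww) hxw hxw'
  · intro a b hab
    obtain ⟨w, hw, w', hw', hQ⟩ := e1 a b hab
    obtain ⟨x, hx, y, hy, hG⟩ := e2 w w' hQ
    exact ⟨x, Set.mem_biUnion hw hx, y, Set.mem_biUnion hw' hy, hG⟩

end Pool.Agent.Helper42.MC9.TRANS
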